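import Mathlib

open Finset

namespace Pool.Agent.Results.MP_cbbafe_pr.TwoMin

open Classical in
/-- Probability that, after the history `h`, the pattern `T` is first completed after exactly
`n` further tosses (`true` is heads). -/
noncomputable def law (p : ℝ) (T h : List Bool) (n : ℕ) : ℝ :=
  ∑ w : Fin n → Bool, if T <:+ h ++ List.ofFn w ∧ ∀ k < n, ¬ T <:+ h ++ (List.ofFn w).take k
    then ∏ i, (if w i then p else 1 - p) else 0

/-- The winning probability of the first pattern, ties split evenly. -/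
noncomputable def W (T₁ T₂ : List Bool) (p : ℝ) : ℝ :=
  ∑' m, law p T₂ [] m * (∑ n ∈ range m, law p T₁ [] n + law p T₁ [] m / 2)

variable {p : ℝ} {T h h' : List Bool}

theorem law_zero : law p T h 0 = if T <:+ h then 1 else 0 := by
  simp [law]

theorem law_succ (n : ℕ) : law p T h (n + 1) = if T <:+ h then 0 else
    p * law p T (h ++ [true]) n + (1 - p) * law p T (h ++ [false]) n := by
  rw [law, ← (Fin.consEquiv fun _ => Bool).sum_comp, Fintype.sum_prod_type, Fintype.sum_bool]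
  simp only [Fin.consEquiv_apply, List.ofFn_succ, Fin.prod_univ_succ, Fin.cons_zero, Fin.cons_succ,
    Nat.forall_lt_succ_left, List.take_zero, List.append_nil, List.take_succ_cons]
  by_cases e : T <:+ h
  · simp [e]
  · simp [e, law, mul_sum]

theorem law_congr (H : ∀ w, T <:+ h ++ w ↔ T <:+ h' ++ w) (n : ℕ) : law p T h n = law p T h' n := by
  simp only [law, H]

theorem law_nonneg (h0 : 0 ≤ p) (h1 : p ≤ 1) (n : ℕ) : 0 ≤ law p T h n :=
  sum_nonneg fun w _ => by
    split_ifs
    · exact prod_nonneg fun i _ => by split_ifs <;> linarith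
    · rfl

theorem law_le (h0 : 0 ≤ p) (h1 : p ≤ 1) (N : ℕ) : ∀ h, ∑ n ∈ range N, law p T h n ≤ 1 := by
  induction N with
  | zero => simp
  | succ N ih =>
    intro h
    simp only [sum_range_succ', law_succ, law_zero]
    split_ifs
    · simp
    · rw [sum_add_distrib, ← mul_sum, ← mul_sum]
      nlinarith [ih (h ++ [true]), ih (h ++ [false])]

/-- Generating functions. -/
noncomputable def G (p : ℝ) (T h : List Bool) (s : ℝ) : ℝ := ∑' n, law p T h n * s ^ n

theorem G_sum (h0 : 0 ≤ p) (h1 : p ≤ 1) {s : ℝ} (s0 : 0 ≤ s) (s1 : s ≤ 1) :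
    HasSum (fun n => law p T h n * s ^ n) (G p T h s) :=
  (Summable.of_nonneg_of_le (fun n => mul_nonneg (law_nonneg h0 h1 n) (by positivity))
    (fun n => mul_le_of_le_one_right (law_nonneg h0 h1 n) (pow_le_one₀ s0 s1))
    (summable_of_sum_range_le (law_nonneg h0 h1) fun N => law_le h0 h1 N h)).hasSum

theorem G_step (h0 : 0 ≤ p) (h1 : p ≤ 1) {s : ℝ} (s0 : 0 ≤ s) (s1 : s ≤ 1) : G p T h s =
    if T <:+ h then 1 else s * (p * G p T (h ++ [true]) s + (1 - p) * G p T (h ++ [false]) s) := by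
  rw [G, (G_sum h0 h1 s0 s1).summable.tsum_eq_zero_add]
  simp only [law_zero, law_succ]
  split_ifs
  · simp
  · rw [← ((((G_sum h0 h1 s0 s1).mul_left p).add ((G_sum h0 h1 s0 s1).mul_left (1 - p))).mul_left
      s).tsum_eq, zero_mul, zero_add]
    exact tsum_congr fun n => by ring

/-- The pattern `HT`. -/
def A : List Bool := [true, false]

/-- The pattern `HHTT`. -/
def B : List Bool := [true, true, false, false]

theorem eqv (w : List Bool) : (A <:+ [false] ++ w ↔ A <:+ [] ++ w) ∧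
    (A <:+ [true, true] ++ w ↔ A <:+ [true] ++ w) ∧ (B <:+ [false] ++ w ↔ B <:+ [] ++ w) ∧
    (B <:+ [true, false] ++ w ↔ B <:+ [] ++ w) ∧
    (B <:+ [true, true, true] ++ w ↔ B <:+ [true, true] ++ w) ∧
    (B <:+ [true, true, false, true] ++ w ↔ B <:+ [true] ++ w) := by
  simp only [← List.reverse_prefix, List.reverse_append]
  generalize w.reverse = v
  rcases v with _ | ⟨a, _ | ⟨b, _ | ⟨c, _ | ⟨d, v⟩⟩⟩⟩ <;> simp [A, B, List.cons_prefix_cons]

theorem G_B (h0 : 0 ≤ p) (h1 : p ≤ 1) {s : ℝ} (s0 : 0 ≤ s) (s1 : s ≤ 1) :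
    (1 - s + p ^ 2 * (1 - p) ^ 2 * s ^ 4) * G p B [] s = p ^ 2 * (1 - p) ^ 2 * s ^ 4 := by
  have c : ∀ {h h'}, (∀ w, B <:+ h ++ w ↔ B <:+ h' ++ w) → G p B h s = G p B h' s := fun H => by
    simp only [G, law_congr H]
  have e0 := G_step (T := B) (h := []) h0 h1 s0 s1
  have e1 := G_step (T := B) (h := [true]) h0 h1 s0 s1
  have e2 := G_step (T := B) (h := [true, true]) h0 h1 s0 s1
  have e3 := G_step (T := B) (h := [true, true, false]) h0 h1 s0 s1
  have e4 := G_step (T := B) (h := [true, true, false, false]) h0 h1 s0 s1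
  rw [if_neg (by decide)] at e0 e1 e2 e3
  rw [if_pos (by decide)] at e4
  simp only [List.cons_append, List.nil_append] at e0 e1 e2 e3
  rw [c fun w => (eqv w).2.2.1] at e0
  rw [c fun w => (eqv w).2.2.2.1] at e1
  rw [c fun w => (eqv w).2.2.2.2.1] at e2
  rw [c fun w => (eqv w).2.2.2.2.2, e4] at e3
  generalize G p B [] s = g0 at *
  generalize G p B [true] s = g1 at *
  generalize G p B [true, true] s = g2 at *
  generalize G p B [true, true, false] s = g3 at *
  grind

theorem law_A (n : ℕ) : law p A [true] (n + 1) = (1 - p) * p ^ n ∧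
    (2 * p - 1) * law p A [] (n + 1) = p * (1 - p) * (p ^ n - (1 - p) ^ n) ∧
    (2 * p - 1) * (1 - ∑ i ∈ range (n + 1), law p A [] i) = p ^ (n + 1) - (1 - p) ^ (n + 1) := by
  induction n with
  | zero =>
    have a : ¬ A <:+ [true] := by decide
    have b : ¬ A <:+ [false] := by decide
    have c : ¬ A <:+ [true, true] := by decide
    have d : A <:+ [true, false] := by decide
    have e : ¬ A <:+ [] := by decide
    simp [law_succ, law_zero, a, b, c, d, e]; ring
  | succ n ih =>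
    refine ⟨?_, ?_, ?_⟩
    · rw [law_succ, if_neg (by decide), law_succ (h := [true] ++ [false]), if_pos (by decide),
        List.cons_append, List.nil_append, law_congr fun w => (eqv w).2.1, ih.1]
      ring
    · rw [law_succ, if_neg (by decide), List.nil_append, List.nil_append,
        law_congr fun w => (eqv w).1, ih.1]
      linear_combination (1 - p) * ih.2.1
    · rw [sum_range_succ]
      linear_combination ih.2.2 - ih.2.1

/-- The closed form. -/
noncomputable def R (p : ℝ) : ℝ :=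
  1 - ((1 + p) * (p ^ 2 * (1 - p) ^ 2 * p ^ 4 / (1 - p + p ^ 2 * (1 - p) ^ 2 * p ^ 4)) -
    (2 - p) * (p ^ 2 * (1 - p) ^ 2 * (1 - p) ^ 4 / (p + p ^ 2 * (1 - p) ^ 2 * (1 - p) ^ 4))) /
      (2 * (2 * p - 1))

theorem W_eq (h0 : 0 < p) (h1 : p < 1) (h2 : 2 * p - 1 ≠ 0) : W A B p = R p := by
  have q0 : 0 < 1 - p := by linarith
  have g1 := G_B h0.le h1.le zero_le_one le_rfl
  have g2 := G_B h0.le h1.le h0.le h1.le
  have g3 := G_B h0.le h1.le q0.le (by linarith)
  rw [sub_self, zero_add, mul_eq_left₀ (by positivity)] at g1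
  rw [sub_sub_cancel] at g3
  rw [mul_comm, ← eq_div_iff (by positivity)] at g2 g3
  rw [R, ← g2, ← g3, W]
  have := (G_sum (T := B) (h := []) h0.le h1.le zero_le_one le_rfl).sub ((((G_sum (T := B) (h := [])
    h0.le h1.le h0.le h1.le).mul_left (1 + p)).sub ((G_sum (T := B) (h := []) h0.le h1.le q0.le
      (by linarith)).mul_left (2 - p))).div_const (2 * (2 * p - 1)))
  rw [g1] at this
  rw [← this.tsum_eq]
  refine tsum_congr fun m => ?_
  rcases m with _ | m
  · simp [law_zero, B]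
  · have a := (law_A (p := p) m).2.2
    have b := (law_A (p := p) (m + 1)).2.2
    rw [sum_range_succ _ (m + 1)] at b
    field_simp
    linear_combination (-law p B [] (m + 1)) * (a + b)

theorem loc {a b c : ℝ} (h0 : 0 < a) (h1 : c < 1) (hb : b ∈ Set.Icc a c)
    (h2 : c < 1 / 2 ∨ 1 / 2 < a) (h3 : R b < R a) (h4 : R b < R c) :
    ∃ x ∈ Set.Ioo a c, IsLocalMin (W A B) x := by
  have n : ∀ x ∈ Set.Icc a c, 2 * x - 1 ≠ 0 := fun x hx e => by
    rcases h2 with h | h <;> linarith [hx.1, hx.2]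
  have e : Set.EqOn (W A B) R (Set.Icc a c) := fun x hx =>
    W_eq (by linarith [hx.1]) (by linarith [hx.2]) (n x hx)
  have k : ContinuousOn R (Set.Icc a c) := by
    refine continuousOn_const.sub (ContinuousOn.div (ContinuousOn.sub (ContinuousOn.mul
      (by fun_prop) (ContinuousOn.div (by fun_prop) (by fun_prop) fun x hx => ?_))
      (ContinuousOn.mul (by fun_prop) (ContinuousOn.div (by fun_prop) (by fun_prop)
        fun x hx => ?_))) (by fun_prop) fun x hx => mul_ne_zero two_ne_zero (n x hx))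
    · have : 0 < 1 - x := by linarith [hx.2]
      positivity
    · have : 0 < x := by linarith [hx.1]
      positivity
  obtain ⟨x, hx, m⟩ := isCompact_Icc.exists_isMinOn ⟨b, hb⟩ (k.congr e)
  have l : R x ≤ R b := by rw [← e hx, ← e hb]; exact m hb
  have x1 : a < x := hx.1.lt_of_ne (by rintro rfl; linarith)
  have x2 : x < c := hx.2.lt_of_ne (by rintro rfl; linarith)
  exact ⟨x, ⟨x1, x2⟩, m.isLocalMin (Icc_mem_nhds x1 x2)⟩

theorem result : ∃ T₁ T₂ : List Bool, T₁ ≠ [] ∧ T₂ ≠ [] ∧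
    (∃ a ∈ Set.Ioo (0 : ℝ) 1, ∃ b ∈ Set.Ioo (0 : ℝ) 1, W T₁ T₂ a ≠ W T₁ T₂ b) ∧
    ∃ x ∈ Set.Ioo (0 : ℝ) 1, ∃ y ∈ Set.Ioo (0 : ℝ) 1, x < y ∧
      IsLocalMin (W T₁ T₂) x ∧ IsLocalMin (W T₁ T₂) y := by
  obtain ⟨x, hx, mx⟩ := loc (a := 1 / 10) (b := 1 / 5) (c := 2 / 5) (by norm_num) (by norm_num)
    (by norm_num) (by norm_num) (by norm_num [R]) (by norm_num [R])
  obtain ⟨y, hy, my⟩ := loc (a := 3 / 5) (b := 4 / 5) (c := 9 / 10) (by norm_num) (by norm_num)
    (by norm_num) (by norm_num) (by norm_num [R]) (by norm_num [R])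
  refine ⟨A, B, by decide, by decide, ⟨1 / 10, by norm_num, 1 / 5, by norm_num, ?_⟩,
    x, ⟨by linarith [hx.1], by linarith [hx.2]⟩, y, ⟨by linarith [hy.1], by linarith [hy.2]⟩,
    by linarith [hx.2, hy.1], mx, my⟩
  rw [W_eq (by norm_num) (by norm_num) (by norm_num), W_eq (by norm_num) (by norm_num) (by norm_num)]
  norm_num [R]

end Pool.Agent.Results.MP_cbbafe_pr.TwoMin
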